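import Mathlib
import Pool.Agent.helper68.S2.EnDefs

/-!
# Module A: assembly
-/

set_option autoImplicit false

open MeasureTheory Metric Set Filter
open scoped ContDiff Topology

namespace Pool.Agent.helper68.S2

namespace AsmA

/-- a function on space that agrees with `f` on the sphere -/
def Agree (g : E3 → ℝ) (f : SS) : Prop := ∀ p : Sph, g p = f p

theorem Agree.ext_eq {g : E3 → ℝ} {f : SS} (h : Agree g f) {x : E3} (hx : x ≠ 0) :
    g (‖x‖⁻¹ • x) = ext f x := by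
  have h1 := h (proj x)
  rw [proj_coe hx] at h1
  exact h1

theorem Agree.eventually {g : E3 → ℝ} {f : SS} (h : Agree g f) {x : E3} (hx : x ≠ 0) :
    (fun y : E3 => g (‖y‖⁻¹ • y)) =ᶠ[𝓝 x] ext f := by
  filter_upwards [isOpen_Om.mem_nhds hx] with y hy
  exact h.ext_eq hy

theorem Agree.iter {g : E3 → ℝ} {f : SS} (h : Agree g f) (k : ℕ) (p : Sph) :
    iteratedFDeriv ℝ k (fun y : E3 => g (‖y‖⁻¹ • y)) p = iteratedFDeriv ℝ k (ext f) p :=
  (Filter.EventuallyEq.iteratedFDeriv ℝ (h.eventually (sph_ne_zero p)) k).eq_of_nhds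

theorem Agree.curv {g : E3 → ℝ} {f : SS} (h : Agree g f) (p : Sph) :
    (1 - ∑ i : Fin 3, iteratedFDeriv ℝ 2 (fun x : EuclideanSpace ℝ (Fin 3) => g (‖x‖⁻¹ • x)) p
      ![EuclideanSpace.single i (1:ℝ), EuclideanSpace.single i (1:ℝ)]) = Pc f p := by
  rw [h.iter 2 p]
  have h1 := Lap_iteratedFDeriv f p
  unfold Pc
  rw [ss_sub, ss_one, h1]

theorem Agree.smooth {g : E3 → ℝ} {f : SS} (h : Agree g f) :
    ContDiffOn ℝ ((⊤ : ℕ∞) : WithTop ℕ∞)
      (fun x : EuclideanSpace ℝ (Fin 3) => g (‖x‖⁻¹ • x)) {x | x ≠ 0} :=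
  (contDiffOn_ext f).congr fun x hx => h.ext_eq hx

theorem exists_agree {g : E3 → ℝ} (h : ContDiffOn ℝ ((⊤ : ℕ∞) : WithTop ℕ∞)
      (fun x : EuclideanSpace ℝ (Fin 3) => g (‖x‖⁻¹ • x)) {x | x ≠ 0}) :
    ∃ f : SS, Agree g f := by
  have hmem : (fun p : Sph => g p) ∈ SS := by
    rw [mem_SS]
    refine h.congr fun x hx => ?_
    change g (proj x) = _
    rw [proj_coe hx]
  exact ⟨⟨_, hmem⟩, fun p => rfl⟩

/-- the right-hand side of the flow equation -/
theorem Agree.rhs {g : E3 → ℝ} {f : SS} (h : Agree g f) (p : Sph) :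
    (-1 + ((∫ q, (1 - ∑ i : Fin 3,
                iteratedFDeriv ℝ 2 (fun x : EuclideanSpace ℝ (Fin 3) => g (‖x‖⁻¹ • x)) q.1
                  ![EuclideanSpace.single i (1:ℝ), EuclideanSpace.single i (1:ℝ)])
                ∂(volume : Measure (EuclideanSpace ℝ (Fin 3))).toSphere) /
              (∫ q, Real.exp (2 * g q.1)
                ∂(volume : Measure (EuclideanSpace ℝ (Fin 3))).toSphere)) /
            (Real.exp (-2 * g p) * (1 - ∑ i : Fin 3,
              iteratedFDeriv ℝ 2 (fun x : EuclideanSpace ℝ (Fin 3) => g (‖x‖⁻¹ • x)) p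
                ![EuclideanSpace.single i (1:ℝ), EuclideanSpace.single i (1:ℝ)]))) =
    -1 + lam f * Real.exp (2 * f p) / Pc f p := by
  have h1 : (∫ q, (1 - ∑ i : Fin 3,
                iteratedFDeriv ℝ 2 (fun x : EuclideanSpace ℝ (Fin 3) => g (‖x‖⁻¹ • x)) q.1
                  ![EuclideanSpace.single i (1:ℝ), EuclideanSpace.single i (1:ℝ)])
                ∂(volume : Measure (EuclideanSpace ℝ (Fin 3))).toSphere) = 4 * Real.pi := by
    rw [← I_Pc f, I_apply]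
    exact integral_congr_ae (Eventually.of_forall fun q => h.curv q)
  have h2 : (∫ q, Real.exp (2 * g q.1)
                ∂(volume : Measure (EuclideanSpace ℝ (Fin 3))).toSphere) = ar f := by
    unfold ar
    rw [I_apply]
    refine integral_congr_ae (Eventually.of_forall fun q => ?_)
    change Real.exp (2 * g q.1) = Ex 2 f q
    rw [Ex_apply, h q]
  rw [h1, h2, h.curv p, h p]
  change -1 + lam f / (Real.exp (-2 * f p) * Pc f p) = _
  have h3 : Real.exp (-2 * f p) = (Real.exp (2 * f p))⁻¹ := by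
    rw [← Real.exp_neg]
    ring_nf
  rw [h3]
  have h4 := (Real.exp_pos (2 * f p)).ne'
  by_cases h5 : Pc f p = 0
  · rw [h5]; simp
  · field_simp

theorem CCn.shift {J K : Set ℝ} {n : ℕ} {u : ℝ → SS} (c : ℝ) (h : CCn J n u)
    (hK : ∀ t ∈ K, t + c ∈ J) : CCn K n (fun t => u (t + c)) := by
  have key : ∀ {u : ℝ → SS}, ContinuousOn (fun z : ℝ × Sph => u z.1 z.2) (J ×ˢ univ) →
      ContinuousOn (fun z : ℝ × Sph => u (z.1 + c) z.2) (K ×ˢ univ) := by
    intro u hu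
    have h1 : ContinuousOn (fun z : ℝ × Sph => ((z.1 + c, z.2) : ℝ × Sph)) (K ×ˢ univ) := by
      fun_prop
    exact hu.comp h1 fun z hz => ⟨hK z.1 hz.1, mem_univ _⟩
  induction n generalizing u with
  | zero => exact key h
  | succ n ih => exact ⟨key h.1, fun i => ih (h.2 i)⟩

theorem CDn.shift {J K : Set ℝ} {n : ℕ} {u v : ℝ → SS} (c : ℝ) (h : CDn J n u v)
    (hK : ∀ t ∈ K, t + c ∈ J) : CDn K n (fun t => u (t + c)) (fun t => v (t + c)) := by
  have key : ∀ {u v : ℝ → SS}, (∀ t ∈ J, ∀ p, HasDerivWithinAt (fun s => u s p) (v t p) J t) →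
      (∀ t ∈ K, ∀ p, HasDerivWithinAt (fun s => u (s + c) p) (v (t + c) p) K t) := by
    intro u v hu t ht p
    have h1 : HasDerivWithinAt (fun s : ℝ => s + c) 1 K t :=
      ((hasDerivAt_id t).add_const c).hasDerivWithinAt
    have h2 := HasDerivWithinAt.scomp (g₁ := fun s => u s p) (h := fun s : ℝ => s + c) t
      (hu (t + c) (hK t ht) p) h1 (fun s hs => hK s hs)
    rw [one_smul] at h2
    exact h2
  induction n generalizing u v with
  | zero => exact key h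
  | succ n ih => exact ⟨key h.1, fun i => ih (h.2 i)⟩

end AsmA

open AsmA

theorem final
    (hex : ∀ a : SS, (∀ p, 0 < Pc a p) → ∃ u F : ℝ → SS, IsFlow (Ici 0) u F ∧ u 0 = a)
    (hsm : ∀ u F : ℝ → SS, IsFlow (Ici 0) u F → ContDiffOn ℝ ∞
      (fun z : ℝ × E3 => ext (u z.1) z.2) (Ici 0 ×ˢ {x : E3 | x ≠ 0}))
    (hconv : ∀ u F : ℝ → SS, IsFlow (Ici 0) u F →
      ∃ g : SS, (∀ w, ∃ K c : ℝ, 0 < c ∧ ∀ t, 0 ≤ t → ∀ p,
        |Xw w (u t) p - Xw w g p| ≤ K * Real.exp (-c * t)) ∧ (∀ p, 0 < Pc g p) ∧ Fq g = 1)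
    (hit : ∀ k : ℕ, ∃ C, ∀ (f : SS) (δ : ℝ),
      (∀ w : List (Fin 3), w.length ≤ k → ∀ q, |Xw w f q| ≤ δ) →
      ∀ p : Sph, ‖iteratedFDeriv ℝ k (ext f) p‖ ≤ C * δ)
    (hof : ∀ U : ℝ → E3 → ℝ,
      ContDiffOn ℝ ∞ (fun z : ℝ × E3 => U z.1 (‖z.2‖⁻¹ • z.2)) (Ici 0 ×ˢ {x : E3 | x ≠ 0}) →
      ∃ u v : ℝ → SS, (∀ t, 0 ≤ t → ∀ p : Sph, u t p = U t p) ∧ CC (Ici 0) u ∧ CC (Ioi 0) v ∧
      CD (Ioi 0) u v) :
    (∀ u₀ : EuclideanSpace ℝ (Fin 3) → ℝ,
    ContDiffOn ℝ ((⊤ : ℕ∞) : WithTop ℕ∞)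
      (fun x : EuclideanSpace ℝ (Fin 3) => u₀ (‖x‖⁻¹ • x)) {x | x ≠ 0} →
    (∀ p ∈ Metric.sphere (0 : EuclideanSpace ℝ (Fin 3)) 1,
      0 < Real.exp (-2 * u₀ p) * (1 - ∑ i : Fin 3,
        iteratedFDeriv ℝ 2 (fun x : EuclideanSpace ℝ (Fin 3) => u₀ (‖x‖⁻¹ • x)) p
          ![EuclideanSpace.single i (1:ℝ), EuclideanSpace.single i (1:ℝ)])) →
    (∃ U : ℝ → EuclideanSpace ℝ (Fin 3) → ℝ,
      ContDiffOn ℝ ((⊤ : ℕ∞) : WithTop ℕ∞)
        (fun z : ℝ × EuclideanSpace ℝ (Fin 3) => U z.1 (‖z.2‖⁻¹ • z.2))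
        (Set.Ici (0:ℝ) ×ˢ {x : EuclideanSpace ℝ (Fin 3) | x ≠ 0}) ∧
      (∀ p ∈ Metric.sphere (0 : EuclideanSpace ℝ (Fin 3)) 1, U 0 p = u₀ p) ∧
      (∀ t : ℝ, 0 ≤ t → ∀ p ∈ Metric.sphere (0 : EuclideanSpace ℝ (Fin 3)) 1,
        0 < Real.exp (-2 * U t p) * (1 - ∑ i : Fin 3,
          iteratedFDeriv ℝ 2 (fun x : EuclideanSpace ℝ (Fin 3) => U t (‖x‖⁻¹ • x)) p
            ![EuclideanSpace.single i (1:ℝ), EuclideanSpace.single i (1:ℝ)])) ∧
      (∀ t : ℝ, 0 < t → ∀ p ∈ Metric.sphere (0 : EuclideanSpace ℝ (Fin 3)) 1,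
        HasDerivAt (fun s : ℝ => U s p)
          (-1 + ((∫ q, (1 - ∑ i : Fin 3,
                iteratedFDeriv ℝ 2 (fun x : EuclideanSpace ℝ (Fin 3) => U t (‖x‖⁻¹ • x)) q.1
                  ![EuclideanSpace.single i (1:ℝ), EuclideanSpace.single i (1:ℝ)])
                ∂(volume : Measure (EuclideanSpace ℝ (Fin 3))).toSphere) /
              (∫ q, Real.exp (2 * U t q.1)
                ∂(volume : Measure (EuclideanSpace ℝ (Fin 3))).toSphere)) /
            (Real.exp (-2 * U t p) * (1 - ∑ i : Fin 3,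
              iteratedFDeriv ℝ 2 (fun x : EuclideanSpace ℝ (Fin 3) => U t (‖x‖⁻¹ • x)) p
                ![EuclideanSpace.single i (1:ℝ), EuclideanSpace.single i (1:ℝ)])))
          t)) ∧
    (∀ U : ℝ → EuclideanSpace ℝ (Fin 3) → ℝ,
      (ContDiffOn ℝ ((⊤ : ℕ∞) : WithTop ℕ∞)
        (fun z : ℝ × EuclideanSpace ℝ (Fin 3) => U z.1 (‖z.2‖⁻¹ • z.2))
        (Set.Ici (0:ℝ) ×ˢ {x : EuclideanSpace ℝ (Fin 3) | x ≠ 0}) ∧
      (∀ p ∈ Metric.sphere (0 : EuclideanSpace ℝ (Fin 3)) 1, U 0 p = u₀ p) ∧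
      (∀ t : ℝ, 0 ≤ t → ∀ p ∈ Metric.sphere (0 : EuclideanSpace ℝ (Fin 3)) 1,
        0 < Real.exp (-2 * U t p) * (1 - ∑ i : Fin 3,
          iteratedFDeriv ℝ 2 (fun x : EuclideanSpace ℝ (Fin 3) => U t (‖x‖⁻¹ • x)) p
            ![EuclideanSpace.single i (1:ℝ), EuclideanSpace.single i (1:ℝ)])) ∧
      (∀ t : ℝ, 0 < t → ∀ p ∈ Metric.sphere (0 : EuclideanSpace ℝ (Fin 3)) 1,
        HasDerivAt (fun s : ℝ => U s p)
          (-1 + ((∫ q, (1 - ∑ i : Fin 3,
                iteratedFDeriv ℝ 2 (fun x : EuclideanSpace ℝ (Fin 3) => U t (‖x‖⁻¹ • x)) q.1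
                  ![EuclideanSpace.single i (1:ℝ), EuclideanSpace.single i (1:ℝ)])
                ∂(volume : Measure (EuclideanSpace ℝ (Fin 3))).toSphere) /
              (∫ q, Real.exp (2 * U t q.1)
                ∂(volume : Measure (EuclideanSpace ℝ (Fin 3))).toSphere)) /
            (Real.exp (-2 * U t p) * (1 - ∑ i : Fin 3,
              iteratedFDeriv ℝ 2 (fun x : EuclideanSpace ℝ (Fin 3) => U t (‖x‖⁻¹ • x)) p
                ![EuclideanSpace.single i (1:ℝ), EuclideanSpace.single i (1:ℝ)])))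
          t)) →
      ∃ w : EuclideanSpace ℝ (Fin 3) → ℝ,
        ContDiffOn ℝ ((⊤ : ℕ∞) : WithTop ℕ∞)
          (fun x : EuclideanSpace ℝ (Fin 3) => w (‖x‖⁻¹ • x)) {x | x ≠ 0} ∧
        (∃ c : ℝ, 0 < c ∧ ∀ p ∈ Metric.sphere (0 : EuclideanSpace ℝ (Fin 3)) 1,
          Real.exp (-2 * w p) * (1 - ∑ i : Fin 3,
            iteratedFDeriv ℝ 2 (fun x : EuclideanSpace ℝ (Fin 3) => w (‖x‖⁻¹ • x)) p
              ![EuclideanSpace.single i (1:ℝ), EuclideanSpace.single i (1:ℝ)]) = c) ∧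
        ∀ k : ℕ, ∀ ε : ℝ, 0 < ε → ∃ T : ℝ, ∀ t : ℝ, T ≤ t →
          ∀ p ∈ Metric.sphere (0 : EuclideanSpace ℝ (Fin 3)) 1,
            ‖iteratedFDeriv ℝ k
                (fun x : EuclideanSpace ℝ (Fin 3) => U t (‖x‖⁻¹ • x) - w (‖x‖⁻¹ • x)) p‖ < ε))  := by
  intro u₀ hsm0 hpos0
  obtain ⟨a, ha⟩ := exists_agree hsm0
  have hPa : ∀ p, 0 < Pc a p := by
    intro p
    have h1 := hpos0 p p.2
    rw [ha.curv p] at h1
    exact (pos_iff_pos_of_mul_pos h1).mp (Real.exp_pos _)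
  refine ⟨?_, ?_⟩
  · obtain ⟨u, F, hflow, hu0⟩ := hex a hPa
    have hag : ∀ t, Agree (fun x => ext (u t) x) (u t) := fun t p => ext_sph _ p
    refine ⟨fun t x => ext (u t) x, ?_, ?_, ?_, ?_⟩
    · refine (hsm u F hflow).congr fun z hz => ?_
      exact ext_smul _ (inv_pos.mpr (norm_pos_iff.mpr hz.2)) _
    · intro p hp
      have h1 := hag 0 ⟨p, hp⟩
      rw [hu0] at h1
      change ext (u 0) p = u₀ p
      rw [hu0]
      exact h1.trans (ha ⟨p, hp⟩).symm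
    · intro t ht p hp
      have h1 := (hag t).curv ⟨p, hp⟩
      change 0 < Real.exp (-2 * ext (u t) p) * (1 - ∑ i : Fin 3,
          iteratedFDeriv ℝ 2 (fun x : EuclideanSpace ℝ (Fin 3) => ext (u t) (‖x‖⁻¹ • x)) p
            ![EuclideanSpace.single i (1:ℝ), EuclideanSpace.single i (1:ℝ)])
      rw [h1]
      exact mul_pos (Real.exp_pos _) (hflow.Ppos (mem_Ici.mpr ht) ⟨p, hp⟩)
    · intro t ht p hp
      have h1 := (hag t).rhs ⟨p, hp⟩
      refine HasDerivAt.congr_deriv (f' := (F t - 1) ⟨p, hp⟩) ?_ ?_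
      · have h2 : HasDerivWithinAt (fun s => u s ⟨p, hp⟩) ((F t - 1) ⟨p, hp⟩) (Ici 0) t :=
          (hflow.du 0) t (mem_Ici.mpr ht.le) ⟨p, hp⟩
        have h3 := h2.hasDerivAt (Ici_mem_nhds ht)
        refine h3.congr_of_eventuallyEq (Eventually.of_forall fun s => ?_)
        exact hag s ⟨p, hp⟩
      · refine Eq.trans ?_ h1.symm
        rw [ss_sub, ss_one, hflow.F_apply (mem_Ici.mpr ht.le)]
        ring
  · rintro U ⟨hU, _, hUpos, hUd⟩
    obtain ⟨u, v, huv, cu, cv, duv⟩ := hof U hU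
    have hag : ∀ t, 0 ≤ t → Agree (U t) (u t) := fun t ht p => (huv t ht p).symm
    have hP : ∀ t, 0 ≤ t → ∀ p : Sph, 0 < Pc (u t) p := by
      intro t ht p
      have h1 := hUpos t ht p p.2
      rw [(hag t ht).curv p] at h1
      exact (pos_iff_pos_of_mul_pos h1).mp (Real.exp_pos _)
    have hv : ∀ t, 0 < t → ∀ p : Sph,
        v t p = -1 + lam (u t) * Real.exp (2 * u t p) / Pc (u t) p := by
      intro t ht p
      have h1 : HasDerivAt (fun s => u s p) (v t p) t :=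
        ((duv 0) t ht p).hasDerivAt (Ioi_mem_nhds ht)
      have h2 := hUd t ht p p.2
      rw [(hag t ht.le).rhs p] at h2
      have h3 : (fun s => u s p) =ᶠ[𝓝 t] fun s => U s p := by
        filter_upwards [Ioi_mem_nhds ht] with s hs
        exact huv s (le_of_lt hs) p
      exact h1.unique (h2.congr_of_eventuallyEq h3)
    have hflow : IsFlow (Ici 0) (fun t => u (t + 1)) (fun t => v (t + 1) + 1) := by
      have hsh : ∀ t ∈ Ici (0 : ℝ), t + 1 ∈ Ici (0 : ℝ) := fun t ht => by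
        rw [mem_Ici] at ht ⊢
        linarith
      have hsh' : ∀ t ∈ Ici (0 : ℝ), t + 1 ∈ Ioi (0 : ℝ) := fun t ht => by
        rw [mem_Ici] at ht
        rw [mem_Ioi]
        linarith
      have hF : ∀ t ∈ Ici (0 : ℝ), ∀ p, (v (t + 1) + 1) p
          = lam (u (t + 1)) * Real.exp (2 * u (t + 1) p) / Pc (u (t + 1)) p := by
        intro t ht p
        rw [ss_add, ss_one, hv (t + 1) (hsh' t ht) p]
        ring
      refine ⟨fun n => AsmA.CCn.shift 1 (cu n) hsh, ?_, ?_, ?_, ?_⟩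
      · have h1 : CC (Ici 0) (fun t => v (t + 1)) := fun n => AsmA.CCn.shift 1 (cv n) hsh'
        exact h1.add (CC.const 1)
      · have h1 : CD (Ici 0) (fun t => u (t + 1)) (fun t => v (t + 1)) :=
          fun n => AsmA.CDn.shift 1 (duv n) hsh'
        refine h1.congr (fun _ _ => rfl) fun t _ => ?_
        rw [add_sub_cancel_right]
      · intro t ht p
        rw [hF t ht p]
        exact div_pos (mul_pos (lam_pos _) (Real.exp_pos _)) (hP (t + 1) (hsh t ht) p)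
      · intro t ht
        apply ssext
        intro p
        rw [ss_mul, hF t ht p, ss_smul, Ex_apply]
        exact div_mul_cancel₀ _ (hP (t + 1) (hsh t ht) p).ne'
    obtain ⟨g, hg, hgP, hgF⟩ := hconv _ _ hflow
    have hagg : Agree (ext g) g := fun p => ext_sph _ p
    refine ⟨ext g, hagg.smooth, ⟨lam g, lam_pos g, ?_⟩, ?_⟩
    · intro p hp
      rw [hagg.curv ⟨p, hp⟩]
      have h1 : Fq g ⟨p, hp⟩ = 1 := by rw [hgF, ss_one]
      have h2 : Fq g ⟨p, hp⟩ = lam g * (Real.exp (2 * g ⟨p, hp⟩) * (Pc g ⟨p, hp⟩)⁻¹) := by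
        unfold Fq
        rw [ss_smul, ss_mul, Ex_apply, Inv_apply hgP]
      have h3 : ext g p = g ⟨p, hp⟩ := hagg ⟨p, hp⟩
      rw [h2] at h1
      have h4 : Real.exp (-2 * g ⟨p, hp⟩) = (Real.exp (2 * g ⟨p, hp⟩))⁻¹ := by
        rw [← Real.exp_neg]
        ring_nf
      rw [h3, h4]
      have h5 := (Real.exp_pos (2 * g ⟨p, hp⟩)).ne'
      have h6 := (hgP ⟨p, hp⟩).ne'
      field_simp at h1 ⊢
      linarith
    · intro k ε hε
      obtain ⟨C, hC⟩ := hit k
      set δ : ℝ := ε / (|C| + 1) with hδ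
      have hδpos : 0 < δ := by positivity
      have hCδ : C * δ < ε := by
        have h1 : C * δ ≤ |C| * δ := mul_le_mul_of_nonneg_right (le_abs_self C) hδpos.le
        have h2 : (|C| + 1) * δ = ε := by
          rw [hδ]
          field_simp
        nlinarith
      have hev : ∀ w ∈ {w : List (Fin 3) | w.length ≤ k}, ∀ᶠ t : ℝ in atTop, ∀ p,
          |Xw w (u (t + 1)) p - Xw w g p| ≤ δ := by
        intro w _
        obtain ⟨K, c, hc, hb⟩ := hg w
        have h1 : Tendsto (fun t : ℝ => K * Real.exp (-c * t)) atTop (𝓝 (K * 0)) := by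
          apply Tendsto.const_mul
          apply Real.tendsto_exp_atBot.comp
          exact tendsto_id.const_mul_atTop_of_neg (by linarith)
        rw [mul_zero] at h1
        filter_upwards [h1.eventually (gt_mem_nhds hδpos), eventually_ge_atTop 0] with t ht ht0 p
        exact (hb t ht0 p).trans ht.le
      have hall := (eventually_all_finite (List.finite_length_le (Fin 3) k)).mpr hev
      obtain ⟨T, hT⟩ := eventually_atTop.mp hall
      refine ⟨max T 0 + 1, fun t ht p hp => ?_⟩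
      have ht1 : T ≤ t - 1 := by
        have := le_max_left T 0
        linarith
      have ht0 : 0 ≤ t := by
        have := le_max_right T 0
        linarith
      have h1 := hT (t - 1) ht1
      rw [sub_add_cancel] at h1
      have h2 := hC (u t - g) δ (fun w hw q => by
        rw [Xw_sub, ss_sub]
        exact h1 w hw q) ⟨p, hp⟩
      have h3 : Agree (fun x => U t x - ext g x) (u t - g) := by
        intro q
        rw [ss_sub]
        change U t q - ext g q = _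
        rw [hag t ht0 q, hagg q]
      have h4 := h3.iter k ⟨p, hp⟩
      change ‖iteratedFDeriv ℝ k (fun x : EuclideanSpace ℝ (Fin 3) =>
        U t (‖x‖⁻¹ • x) - ext g (‖x‖⁻¹ • x)) ((⟨p, hp⟩ : Sph) : E3)‖ < ε
      rw [h4]
      exact lt_of_le_of_lt h2 hCδ

end Pool.Agent.helper68.S2
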