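import Mathlib
import Pool.Agent.helper68.S2.Flow
import Pool.Agent.helper73.S2.Frame

/-!
# Module L2: joint smoothness in time and space
-/

set_option autoImplicit false

open MeasureTheory Metric Set Filter
open scoped ContDiff Topology

namespace Pool.Agent.helper68.S2

/-- `n` times differentiable in time -/
def Smn (J : Set ℝ) : ℕ → (ℝ → SS) → Prop
  | 0, u => CC J u
  | n + 1, u => CC J u ∧ ∃ u', CD J u u' ∧ Smn J n u'

theorem Smn.cc {J : Set ℝ} {n : ℕ} {u : ℝ → SS} (h : Smn J n u) : CC J u := by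
  cases n with
  | zero => exact h
  | succ n => exact h.1

theorem Smn.of_succ {J : Set ℝ} {n : ℕ} {u : ℝ → SS} (h : Smn J (n + 1) u) : Smn J n u := by
  induction n generalizing u with
  | zero => exact h.1
  | succ n ih =>
    obtain ⟨h1, u', h2, h3⟩ := h
    exact ⟨h1, u', h2, ih h3⟩

theorem Smn.X {J : Set ℝ} {n : ℕ} {u : ℝ → SS} (h : Smn J n u) (i : Fin 3) :
    Smn J n (fun t => S2.X i (u t)) := by
  induction n generalizing u with
  | zero => exact CC.X h i
  | succ n ih =>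
    obtain ⟨h1, u', h2, h3⟩ := h
    exact ⟨h1.X i, fun t => S2.X i (u' t), h2.X i, ih h3⟩

/-- the domain -/
abbrev Dm : Set (ℝ × E3) := Ici (0 : ℝ) ×ˢ {x : E3 | x ≠ 0}

theorem uniqueDiffOn_Dm : UniqueDiffOn ℝ Dm :=
  (uniqueDiffOn_Ici (0 : ℝ)).prod isOpen_Om.uniqueDiffOn

theorem continuousOn_proj : ContinuousOn proj {x : E3 | x ≠ 0} := by
  rw [continuousOn_iff_continuous_domRestrict, Topology.IsInducing.subtypeVal.continuous_iff]
  have h : (Subtype.val ∘ ({x : E3 | x ≠ 0}.domRestrict proj)) =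
      fun x : {x : E3 | x ≠ 0} => ‖(x : E3)‖⁻¹ • (x : E3) := by
    funext x
    exact proj_coe x.2
  rw [h]
  have h2 : Continuous fun x : {x : E3 | x ≠ 0} => ‖(x : E3)‖⁻¹ :=
    continuous_subtype_val.norm.inv₀ (fun x => norm_ne_zero_iff.mpr x.2)
  exact h2.smul continuous_subtype_val

theorem continuousOn_joint {J : Set ℝ} {u : ℝ → SS} (h : CC J u) :
    ContinuousOn (fun z : ℝ × E3 => ext (u z.1) z.2) (J ×ˢ {x : E3 | x ≠ 0}) := by
  have h1 : ContinuousOn (fun z : ℝ × Sph => u z.1 z.2) (J ×ˢ univ) := (h 0)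
  have h2 : ContinuousOn (fun z : ℝ × E3 => ((z.1, proj z.2) : ℝ × Sph)) (J ×ˢ {x : E3 | x ≠ 0}) := by
    apply ContinuousOn.prodMk continuous_fst.continuousOn
    exact continuousOn_proj.comp continuous_snd.continuousOn (fun z hz => hz.2)
  exact h1.comp h2 (fun z hz => ⟨hz.1, mem_univ _⟩)

theorem hasFDerivWithinAt_joint {J : Set ℝ} (hJ : Convex ℝ J) {u u' : ℝ → SS} (hd : CDn J 0 u u')
    (hc : CCn J 0 u') {t : ℝ} (ht : t ∈ J) {x : E3} (hx : x ≠ 0) :
    HasFDerivWithinAt (fun z : ℝ × E3 => ext (u z.1) z.2)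
      (ext (u' t) x • ContinuousLinearMap.fst ℝ ℝ E3 +
        (fderiv ℝ (ext (u t)) x).comp (ContinuousLinearMap.snd ℝ ℝ E3))
      (J ×ˢ {x : E3 | x ≠ 0}) (t, x) := by
  rw [hasFDerivWithinAt_iff_isLittleO]
  have hd : ∀ t ∈ J, ∀ p, HasDerivWithinAt (fun s => u s p) (u' t p) J t := hd
  have hv : ContinuousOn (fun z : ℝ × Sph => u' z.1 z.2) (J ×ˢ univ) := hc
  -- term A
  have hA : (fun z : ℝ × E3 => ext (u z.1) z.2 - ext (u t) z.2 - (z.1 - t) * ext (u' t) z.2)
      =o[𝓝[J ×ˢ {x : E3 | x ≠ 0}] (t, x)] fun z => z - (t, x) := by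
    rw [Asymptotics.isLittleO_iff]
    intro c hc0
    have h1 := unif_deriv (u := fun t p => u t p) (v := fun t p => u' t p) hJ hd hv ht hc0
    have h2 : Tendsto (fun z : ℝ × E3 => z.1) (𝓝[J ×ˢ {x : E3 | x ≠ 0}] (t, x)) (𝓝[J] t) := by
      apply tendsto_nhdsWithin_of_tendsto_nhds_of_eventually_within
      · exact (continuous_fst.tendsto (t, x)).mono_left nhdsWithin_le_nhds
      · filter_upwards [self_mem_nhdsWithin] with z hz
        exact hz.1
    filter_upwards [h2.eventually h1] with z hz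
    rw [Real.norm_eq_abs]
    refine (hz (proj z.2)).trans ?_
    apply mul_le_mul_of_nonneg_left _ hc0.le
    have : |z.1 - t| = ‖(z - (t, x)).1‖ := by rw [Prod.fst_sub, Real.norm_eq_abs]
    rw [this]
    exact norm_fst_le _
  -- term B
  have hB : (fun z : ℝ × E3 => (z.1 - t) * (ext (u' t) z.2 - ext (u' t) x))
      =o[𝓝[J ×ˢ {x : E3 | x ≠ 0}] (t, x)] fun z => z - (t, x) := by
    rw [Asymptotics.isLittleO_iff]
    intro c hc0
    have h1 : ContinuousAt (ext (u' t)) x := (differentiableAt_ext (u' t) hx).continuousAt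
    have h2 : Tendsto (fun z : ℝ × E3 => ext (u' t) z.2 - ext (u' t) x)
        (𝓝[J ×ˢ {x : E3 | x ≠ 0}] (t, x)) (𝓝 0) := by
      have h3 : Tendsto (fun z : ℝ × E3 => ext (u' t) z.2) (𝓝 (t, x)) (𝓝 (ext (u' t) x)) :=
        h1.tendsto.comp (continuous_snd.tendsto (t, x))
      have h4 := (h3.mono_left (nhdsWithin_le_nhds (s := J ×ˢ {x : E3 | x ≠ 0}))).sub_const
        (ext (u' t) x)
      rwa [sub_self] at h4
    have h3 : ∀ᶠ z : ℝ × E3 in 𝓝[J ×ˢ {x : E3 | x ≠ 0}] (t, x),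
        ‖ext (u' t) z.2 - ext (u' t) x‖ < c := by
      have := h2.norm
      rw [norm_zero] at this
      exact this.eventually (gt_mem_nhds hc0)
    filter_upwards [h3] with z hz
    rw [norm_mul, mul_comm]
    apply mul_le_mul hz.le _ (norm_nonneg _) hc0.le
    have : ‖z.1 - t‖ = ‖(z - (t, x)).1‖ := by rw [Prod.fst_sub]
    rw [this]
    exact norm_fst_le _
  -- term C
  have hC : (fun z : ℝ × E3 => ext (u t) z.2 - ext (u t) x - fderiv ℝ (ext (u t)) x (z.2 - x))
      =o[𝓝[J ×ˢ {x : E3 | x ≠ 0}] (t, x)] fun z => z - (t, x) := by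
    have h1 : HasFDerivAt (fun z : ℝ × E3 => ext (u t) z.2)
        ((fderiv ℝ (ext (u t)) x).comp (ContinuousLinearMap.snd ℝ ℝ E3)) (t, x) := by
      have h2 : HasFDerivAt (ext (u t)) (fderiv ℝ (ext (u t)) x) ((fun z : ℝ × E3 => z.2) (t, x)) :=
        (differentiableAt_ext (u t) hx).hasFDerivAt
      exact h2.comp (t, x) hasFDerivAt_snd
    have h2 := (h1.hasFDerivWithinAt (s := J ×ˢ {x : E3 | x ≠ 0})).isLittleO
    exact h2
  refine ((hA.add hB).add hC).congr_left fun z => ?_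
  simp only [add_apply, smul_apply, ContinuousLinearMap.comp_apply, ContinuousLinearMap.coe_fst',
    ContinuousLinearMap.coe_snd', Prod.fst_sub, Prod.snd_sub, smul_eq_mul]
  ring

theorem joint_aux (n : ℕ) : ∀ {u : ℝ → SS}, Smn (Ici 0) n u →
    ContDiffOn ℝ n (fun z : ℝ × E3 => ext (u z.1) z.2) Dm := by
  induction n with
  | zero =>
    intro u h
    rw [Nat.cast_zero, contDiffOn_zero]
    exact continuousOn_joint h.cc
  | succ n ih =>
    intro u h
    have hX : ∀ i, Smn (Ici 0) n (fun t => S2.X i (u t)) := fun i => (h.X i).of_succ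
    obtain ⟨h1, u', h2, h3⟩ := h
    have hw : ∀ i, ContDiffOn ℝ n (fun z : ℝ × E3 => Cj i z.2) Dm := fun i =>
      ((contDiffOn_Cj i).of_le (by exact_mod_cast le_top)).comp contDiff_snd.contDiffOn
        (fun z hz => hz.2)
    rw [Nat.cast_succ, contDiffOn_succ_iff_hasFDerivWithinAt_of_uniqueDiffOn uniqueDiffOn_Dm]
    refine ⟨fun h => by simp at h, fun z => ext (u' z.1) z.2 • ContinuousLinearMap.fst ℝ ℝ E3 +
        (∑ j, ext (S2.X j (u z.1)) z.2 • Cj j z.2).comp (ContinuousLinearMap.snd ℝ ℝ E3), ?_, ?_⟩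
    · have h4 : ContDiffOn ℝ n (fun z : ℝ × E3 => ext (u' z.1) z.2) Dm := ih h3
      have h5 : ∀ i, ContDiffOn ℝ n (fun z : ℝ × E3 => ext (S2.X i (u z.1)) z.2 • Cj i z.2) Dm :=
        fun i => (ih (hX i)).smul (hw i)
      apply ContDiffOn.add
      · exact h4.smul contDiffOn_const
      · exact (ContDiffOn.sum fun i _ => h5 i).clm_comp contDiffOn_const
    · rintro ⟨t, x⟩ ⟨ht, hx⟩
      have h6 := hasFDerivWithinAt_joint (convex_Ici (0 : ℝ)) (h2 0) (h3.cc 0) ht hx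
      rw [fderiv_ext_eq (u t) hx] at h6
      exact h6

theorem joint_smooth {u : ℝ → SS} (h : ∀ n, Smn (Ici 0) n u) :
    ContDiffOn ℝ ∞ (fun z : ℝ × E3 => ext (u z.1) z.2) (Ici 0 ×ˢ {x : E3 | x ≠ 0}) := by
  rw [contDiffOn_infty]
  intro n
  exact joint_aux n (h n)

end Pool.Agent.helper68.S2
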