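import Mathlib
import Pool.Agent.helper25.S2L2

/-!
# Module E3: smoothness in time of the flow
-/

set_option autoImplicit false

open MeasureTheory Metric Set Filter
open scoped ContDiff Topology

namespace Pool.Agent.helper68.S2

variable {J : Set ℝ}

theorem Smn.congr {n : ℕ} {u v : ℝ → SS} (hu : Smn J n u) (h : ∀ t ∈ J, v t = u t) :
    Smn J n v := by
  cases n with
  | zero => exact CC.congr hu h
  | succ n =>
    obtain ⟨h1, u', h2, h3⟩ := hu
    exact ⟨h1.congr h, u', h2.congr h (fun _ _ => rfl), h3⟩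

theorem Smn.const (f : SS) (n : ℕ) : Smn J n (fun _ => f) := by
  induction n generalizing f with
  | zero => exact CC.const f
  | succ n ih => exact ⟨CC.const f, fun _ => 0, CD.const f, ih 0⟩

theorem Smn.add {n : ℕ} {u v : ℝ → SS} (hu : Smn J n u) (hv : Smn J n v) :
    Smn J n (fun t => u t + v t) := by
  induction n generalizing u v with
  | zero => exact CC.add hu hv
  | succ n ih =>
    obtain ⟨h1, u', h2, h3⟩ := hu
    obtain ⟨k1, v', k2, k3⟩ := hv
    exact ⟨h1.add k1, _, h2.add k2, ih h3 k3⟩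

theorem Smn.neg {n : ℕ} {u : ℝ → SS} (hu : Smn J n u) : Smn J n (fun t => - u t) := by
  induction n generalizing u with
  | zero => exact CC.neg hu
  | succ n ih =>
    obtain ⟨h1, u', h2, h3⟩ := hu
    exact ⟨h1.neg, _, h2.neg, ih h3⟩

theorem Smn.sub {n : ℕ} {u v : ℝ → SS} (hu : Smn J n u) (hv : Smn J n v) :
    Smn J n (fun t => u t - v t) := by
  simp only [sub_eq_add_neg]
  exact hu.add hv.neg

theorem Smn.mul {n : ℕ} {u v : ℝ → SS} (hu : Smn J n u) (hv : Smn J n v) :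
    Smn J n (fun t => u t * v t) := by
  induction n generalizing u v with
  | zero => exact CC.mul hu hv
  | succ n ih =>
    have hu' := hu.of_succ
    have hv' := hv.of_succ
    obtain ⟨h1, u', h2, h3⟩ := hu
    obtain ⟨k1, v', k2, k3⟩ := hv
    exact ⟨h1.mul k1, _, h2.mul k2, (ih h3 hv').add (ih hu' k3)⟩

theorem Smn.Lap {n : ℕ} {u : ℝ → SS} (hu : Smn J n u) : Smn J n (fun t => Lap (u t)) := by
  simp only [Lap_eq]
  exact (((hu.X 0).X 0).add ((hu.X 1).X 1)).add ((hu.X 2).X 2)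

theorem Smn.cmp {n : ℕ} {u : ℝ → SS} {s : Set ℝ} (hs : IsOpen s) {φ : ℝ → ℝ}
    (hφ : ContDiffOn ℝ ∞ φ s) (hus : ∀ t ∈ J, ∀ p, u t p ∈ s) (hu : Smn J n u) :
    Smn J n (fun t => cmp φ (u t)) := by
  induction n generalizing φ with
  | zero => exact CC.cmp hs hφ hus hu
  | succ n ih =>
    have hu' := hu.of_succ
    obtain ⟨h1, u', h2, h3⟩ := hu
    have hφ' : ContDiffOn ℝ ∞ (deriv φ) s := hφ.deriv_of_isOpen hs (by simp)
    exact ⟨CC.cmp hs hφ hus h1, _, CD.cmp hs hφ hus h2, (ih hφ' hu').mul h3⟩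

theorem Smn.Ex {n : ℕ} {u : ℝ → SS} (hu : Smn J n u) (c : ℝ) : Smn J n (fun t => Ex c (u t)) :=
  hu.cmp isOpen_univ (contDiffOn_exp c univ) (fun _ _ _ => mem_univ _)

theorem Smn.Inv {n : ℕ} {u : ℝ → SS} (hu : Smn J n u) (h : ∀ t ∈ J, ∀ p, 0 < u t p) :
    Smn J n (fun t => Inv (u t)) :=
  hu.cmp isOpen_Ioi contDiffOn_inv_Ioi h

theorem Smn.I (hJ : Convex ℝ J) {n : ℕ} {u : ℝ → SS} (hu : Smn J n u) :
    Smn J n (fun t => (S2.I (u t)) • (1 : SS)) := by
  induction n generalizing u with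
  | zero => exact CC.smul (I_cont (CC.mono hu subset_rfl 0)) (CC.const 1)
  | succ n ih =>
    obtain ⟨h1, u', h2, h3⟩ := hu
    refine ⟨CC.smul (I_cont (h1 0)) (CC.const 1), _,
      CD.smul (fun t ht => I_deriv hJ (h2 0) (h3.cc 0) ht) (CD.const 1), ?_⟩
    refine (ih h3).congr fun t _ => ?_
    rw [smul_zero, add_zero]

theorem Smn.lam (hJ : Convex ℝ J) {n : ℕ} {u : ℝ → SS} (hu : Smn J n u) :
    Smn J n (fun t => (lam (u t)) • (1 : SS)) := by
  have h1 : Smn J n (fun t => (ar (u t)) • (1 : SS)) := (hu.Ex 2).I hJ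
  have hpos : ∀ t ∈ J, ∀ p, 0 < ((ar (u t)) • (1 : SS)) p := by
    intro t _ p
    rw [ss_smul, ss_one, mul_one]
    exact ar_pos _
  have h2 := (Smn.const ((4 * Real.pi) • (1 : SS)) n).mul (h1.Inv hpos)
  refine h2.congr fun t ht => ?_
  apply ssext
  intro p
  rw [ss_mul, ss_smul, ss_smul, ss_one, Inv_apply (hpos t ht), ss_smul, ss_one]
  unfold S2.lam
  rw [mul_one, mul_one, mul_one, div_eq_mul_inv]

theorem flow_smooth {u F : ℝ → SS} (h : IsFlow (Ici 0) u F) : ∀ n, Smn (Ici 0) n u := by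
  intro n
  induction n with
  | zero => exact h.cu
  | succ n ih =>
    have hPc : Smn (Ici 0) n (fun t => Pc (u t)) := (Smn.const 1 n).sub ih.Lap
    have hF : Smn (Ici 0) n F := by
      have h1 := (ih.lam (convex_Ici (0 : ℝ))).mul
        ((ih.Ex 2).mul (hPc.Inv fun t ht p => h.Ppos ht p))
      refine h1.congr fun t ht => ?_
      rw [h.F_eq ht, smul_mul_assoc, one_mul]
    exact ⟨h.cu, _, h.du, hF.sub (Smn.const 1 n)⟩

/-- joint smoothness of the flow -/
theorem flow_joint_smooth {u F : ℝ → SS} (h : IsFlow (Ici 0) u F) :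
    ContDiffOn ℝ ∞ (fun z : ℝ × E3 => ext (u z.1) z.2) (Ici 0 ×ˢ {x : E3 | x ≠ 0}) :=
  joint_smooth (flow_smooth h)

end Pool.Agent.helper68.S2
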